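import Mathlib
import Pool.Agent.Helper41.FQ.Std

/-!
# The chart ring is standard smooth of relative dimension five
-/

open MvPolynomial

universe u v

noncomputable section

namespace FQ

variable {k : Type u} [Field k] [CharP k 2] (κ : Idx → k)

/-- The variable belonging to a relation: `Z_l` for `l ≠ a`, and `w` for `l = a`. -/
def relVar (l : Idx) : Vars := if l = (0, false) then Sum.inr 0 else Sum.inl l

theorem relVar_injective : Function.Injective relVar := by
  intro a b h
  revert a b
  decide

/-- The naive presentation of the chart ring. -/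
def prePres : Algebra.PreSubmersivePresentation k (ChartRing κ) Vars Idx :=
  Algebra.PreSubmersivePresentation.naive (R := k) (σ := Vars) (ι := Idx) (v := rel κ)
    relVar relVar_injective

theorem pderiv_sq (i : Vars) (p : MvPolynomial Vars k) : pderiv i (p ^ 2) = 0 := by
  rw [Derivation.leibniz_pow]
  have : (2 : ℕ) • (p ^ (2 - 1) • pderiv i p) = 0 := by
    rw [two_nsmul]
    exact CharTwo.add_self_eq_zero _
  exact this

theorem pderiv_rel_ne (i l : Idx) (hl : l ≠ (0, false)) :
    pderiv (relVar i) (rel κ l) = if i = l then 1 else 0 := by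
  rw [rel, if_neg hl, map_sub, map_add, pderiv_sq, Derivation.leibniz, pderiv_sq,
    Derivation.leibniz, pderiv_sq]
  by_cases hi : i = (0, false)
  · subst hi
    rw [relVar, if_pos rfl, if_neg (Ne.symm hl)]
    simp [pderiv_X]
  · rw [relVar, if_neg hi]
    have h1 : (Sum.inl (0, false) : Vars) ≠ Sum.inl i := by
      intro h; exact hi (Sum.inl.inj h).symm
    rw [pderiv_X_of_ne h1, pderiv_X]
    by_cases h : i = l
    · subst h; simp
    · rw [if_neg h]
      have : (Sum.inl l : Vars) ≠ Sum.inl i := by
        intro h'; exact h (Sum.inl.inj h').symm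
      simp [this]

omit [CharP k 2] in
theorem pderiv_rel_a : pderiv (relVar (0, false)) (rel κ (0, false)) = pLam κ (0, false) := by
  rw [rel, if_pos rfl, relVar, if_pos rfl, map_sub, Derivation.leibniz, pderiv_X_self]
  simp [pLam, pderiv_X]

omit [CharP k 2] in
theorem jacobiMatrix_prePres (i l : Idx) :
    (prePres κ).jacobiMatrix i l = pderiv (relVar i) (rel κ l) :=
  Algebra.PreSubmersivePresentation.jacobiMatrix_naive _ _ _ _ i l

theorem det_jacobiMatrix_prePres :
    (prePres κ).jacobiMatrix.det = pLam κ (0, false) := by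
  have h : (prePres κ).jacobiMatrix =
      (1 : Matrix Idx Idx (MvPolynomial Vars k)).updateCol (0, false)
        (fun i => pderiv (relVar i) (rel κ (0, false))) := by
    refine Matrix.ext fun i l => ?_
    refine (jacobiMatrix_prePres κ i l).trans ?_
    by_cases hl : l = (0, false)
    · subst hl
      rw [Matrix.updateCol_self]
    · rw [Matrix.updateCol_ne hl, pderiv_rel_ne κ i l hl, Matrix.one_apply]
  refine (congrArg Matrix.det h).trans ?_
  rw [← Matrix.cramer_apply, Matrix.cramer_one]
  exact pderiv_rel_a κ

omit [CharP k 2] in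
theorem isUnit_mk_pLam : IsUnit (ChartRing.mk κ (pLam κ (0, false))) := by
  rw [← ChartRing.lam_eq]
  exact IsUnit.of_mul_eq_one _ ((mul_comm _ _).trans (ChartRing.pt κ).eq_w)

theorem isUnit_jacobian : IsUnit (prePres κ).jacobian := by
  rw [Algebra.PreSubmersivePresentation.jacobian_eq_jacobiMatrix_det]
  have h := congrArg (algebraMap (prePres κ).Ring (ChartRing κ)) (det_jacobiMatrix_prePres κ)
  rw [h]
  exact isUnit_mk_pLam κ

/-- The submersive presentation of the chart ring. -/
def subPres : Algebra.SubmersivePresentation k (ChartRing κ) Vars Idx where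
  toPreSubmersivePresentation := prePres κ
  jacobian_isUnit := isUnit_jacobian κ

theorem ChartRing.standardSmooth :
    Algebra.IsStandardSmoothOfRelativeDimension 5 k (ChartRing κ) := by
  refine ⟨Vars, Idx, inferInstance, inferInstance, subPres κ, ?_⟩
  rw [Algebra.Presentation.dimension]
  simp [Vars]

/-- The free variables of the chart: `Z_a, h_p, h_(star p), h_q, h_(star q)`. -/
def freeVar : Fin 5 → Vars :=
  ![Sum.inl (0, false), Sum.inr 1, Sum.inr 2, Sum.inr 3, Sum.inr 4]

theorem freeVar_injective : Function.Injective freeVar := by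
  intro a b h
  revert a b
  decide

theorem isCompl_freeVar : IsCompl (Set.range freeVar) (Set.range relVar) := by
  constructor
  · rw [Set.disjoint_iff]
    rintro x ⟨⟨a, rfl⟩, ⟨b, hb⟩⟩
    revert a b
    decide
  · rw [codisjoint_iff, Set.top_eq_univ, Set.eq_univ_iff_forall]
    intro x
    rcases x with l | i
    · by_cases h : l = (0, false)
      · left; exact ⟨0, by rw [h]; rfl⟩
      · right; exact ⟨l, by rw [relVar, if_neg h]⟩
    · fin_cases i
      · right; exact ⟨(0, false), rfl⟩
      · left; exact ⟨1, rfl⟩
      · left; exact ⟨2, rfl⟩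
      · left; exact ⟨3, rfl⟩
      · left; exact ⟨4, rfl⟩

/-- The basis `dZ_a, dh_p, dh_(star p), dh_q, dh_(star q)` of the differentials. -/
def ChartRing.basisOmega : Module.Basis (Fin 5) (ChartRing κ) (Ω[ChartRing κ⁄k]) :=
  (subPres κ).basisKaehlerOfIsCompl freeVar_injective isCompl_freeVar

theorem ChartRing.basisOmega_apply (i : Fin 5) :
    ChartRing.basisOmega κ i =
      KaehlerDifferential.D k (ChartRing κ) ((ChartRing.pt κ).coords i) := by
  rw [ChartRing.basisOmega, Algebra.SubmersivePresentation.basisKaehlerOfIsCompl_apply]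
  congr 1
  fin_cases i <;> rfl

end FQ
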